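import Pool.Agent.N939.ME.Stm2

/-!
PROJECT ME (helper939): counting the crossings of levels.
-/

set_option autoImplicit false
open MeasureTheory ProbabilityTheory Filter Topology Finset
open scoped Classical

namespace Pool.Agent.N591.ME
open Pool.Agent.N939.ME

/-- the indicator of `k / m < r` -/
noncomputable def ul (m k : ℕ) (r : ℝ) : ℝ := if (k : ℝ) / m < r then 1 else 0

lemma ul_meas (m k : ℕ) : Measurable (ul m k) := by
  unfold ul
  exact Measurable.ite measurableSet_Ioi measurable_const measurable_const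

lemma ul_nonneg (m k : ℕ) (r : ℝ) : 0 ≤ ul m k r := by
  unfold ul; split_ifs <;> norm_num

lemma ul_le_one (m k : ℕ) (r : ℝ) : ul m k r ≤ 1 := by
  unfold ul; split_ifs <;> norm_num

lemma count_aux (m : ℕ) (hm : 0 < m) (a b : ℝ) (h : b ≤ a) :
    ∑ k ∈ range m, ul m k a * (1 - ul m k b) ≤ m * (a - b) + 1 := by
  have hm' : (0 : ℝ) < m := by exact_mod_cast hm
  have h1 : ∑ k ∈ range m, ul m k a * (1 - ul m k b) =
      (((range m).filter fun k : ℕ => b ≤ (k : ℝ) / m ∧ (k : ℝ) / m < a).card : ℝ) := by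
    rw [card_filter]
    push_cast
    refine sum_congr rfl fun k _ => ?_
    unfold ul
    by_cases ha : (k : ℝ) / m < a
    · by_cases hb : (k : ℝ) / m < b
      · rw [if_pos ha, if_pos hb, if_neg (fun hh => absurd hb (not_lt.2 hh.1))]
        norm_num
      · rw [if_pos ha, if_neg hb, if_pos ⟨not_lt.1 hb, ha⟩]
        norm_num
    · rw [if_neg ha, zero_mul, if_neg (fun hh => ha hh.2)]
  rw [h1]
  have h2 : ((range m).filter fun k : ℕ => b ≤ (k : ℝ) / m ∧ (k : ℝ) / m < a).card ≤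
      (Finset.Ico ⌈(m : ℝ) * b⌉ ⌈(m : ℝ) * a⌉).card := by
    refine card_le_card_of_injOn (fun k : ℕ => (k : ℤ)) ?_ (Nat.cast_injective (R := ℤ)).injOn
    intro k hk
    have hk' := (mem_filter.1 hk).2
    have h3 : (m : ℝ) * b ≤ k := by
      have := (le_div_iff₀ hm').1 hk'.1
      linarith [mul_comm b (m : ℝ)]
    have h4 : (k : ℝ) < m * a := by
      have := (div_lt_iff₀ hm').1 hk'.2
      linarith [mul_comm a (m : ℝ)]
    refine mem_coe.2 (mem_Ico.2 ⟨Int.ceil_le.2 ?_, Int.lt_ceil.2 ?_⟩)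
    · exact_mod_cast h3
    · exact_mod_cast h4
  rw [Int.card_Ico] at h2
  have h5 : (((range m).filter fun k : ℕ => b ≤ (k : ℝ) / m ∧ (k : ℝ) / m < a).card : ℝ) ≤
      ((⌈(m : ℝ) * a⌉ - ⌈(m : ℝ) * b⌉).toNat : ℝ) := by exact_mod_cast h2
  refine h5.trans ?_
  have h6 : ((⌈(m : ℝ) * a⌉ - ⌈(m : ℝ) * b⌉).toNat : ℝ) =
      max (((⌈(m : ℝ) * a⌉ - ⌈(m : ℝ) * b⌉ : ℤ)) : ℝ) 0 := by
    rw [← Int.cast_natCast, Int.toNat_eq_max]
    push_cast
    rfl
  rw [h6]
  apply max_le
  · push_cast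
    have := Int.ceil_lt_add_one ((m : ℝ) * a)
    have := Int.le_ceil ((m : ℝ) * b)
    nlinarith
  · nlinarith

lemma ul_mono (m k : ℕ) {a b : ℝ} (h : b ≤ a) : (1 - ul m k a) * ul m k b = 0 := by
  unfold ul
  by_cases hb : (k : ℝ) / m < b
  · rw [if_pos (hb.trans_le h)]
    simp
  · rw [if_neg hb]
    simp

lemma count (m : ℕ) (hm : 0 < m) (a b : ℝ) :
    ∑ k ∈ range m, (ul m k a * (1 - ul m k b) + (1 - ul m k a) * ul m k b) ≤
      m * |a - b| + 1 := by
  rcases le_total b a with h | h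
  · rw [abs_of_nonneg (sub_nonneg.2 h)]
    refine le_trans (le_of_eq (sum_congr rfl fun k _ => ?_)) (count_aux m hm a b h)
    rw [ul_mono m k h, add_zero]
  · rw [abs_of_nonpos (sub_nonpos.2 h), neg_sub]
    refine le_trans (le_of_eq (sum_congr rfl fun k _ => ?_)) (count_aux m hm b a h)
    have := ul_mono m k h
    linarith

section

variable {S : Type} [MeasurableSpace S] {Q : Kernel S S} [IsMarkovKernel Q]

lemma int_bdd (μ : Measure S) [IsFiniteMeasure μ] {h : S → ℝ} (hm : Measurable h) {C : ℝ}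
    (hC : ∀ x, |h x| ≤ C) : Integrable h μ :=
  Integrable.of_bound hm.aestronglyMeasurable C (ae_of_all _ hC)

lemma TT_bdd {h : S → ℝ} {C : ℝ} (hC : ∀ x, |h x| ≤ C) (x : S) : |TT Q h x| ≤ C := by
  have h0 : 0 ≤ C := (abs_nonneg _).trans (hC x)
  unfold TT
  have := norm_integral_le_of_norm_le_const (μ := Q x) (f := h) (C := C) (ae_of_all _ hC)
  simpa using this

end

/-- the main estimate for one step -/
lemma onestep (hTT : S_TT) (hBK2 : S_BK2) {S : Type} [MeasurableSpace S] {Q : Kernel S S}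
    [IsMarkovKernel Q] {ν : Measure S} [IsProbabilityMeasure ν] (hν : ν.bind Q = ν)
    {y : S → ℝ} (hy : Measurable y) (hy01 : ∀ x, 0 ≤ y x ∧ y x ≤ 1) {m : ℕ} (hm : 0 < m)
    {s : ℝ} (hs : 0 < s) :
    ∑ k ∈ range m, (∫ x, ul m k (y x) * TT Q (fun z => 1 - ul m k (bk01 Q ν y z)) x ∂ν +
      ∫ x, (1 - ul m k (y x)) * TT Q (fun z => ul m k (bk01 Q ν y z)) x ∂ν) ≤
    1 + m / (2 * s) + m * s / 2 * (∫ x, y x ^ 2 ∂ν - ∫ x, bk01 Q ν y x ^ 2 ∂ν) := by
  obtain ⟨hT1, hT2, -⟩ := hTT S Q ν hν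
  obtain ⟨-, hB2, hB3, -⟩ := hBK2 S Q ν hν
  obtain ⟨hbm, hb01⟩ : Measurable (bk01 Q ν y) ∧ ∀ x, 0 ≤ bk01 Q ν y x ∧ bk01 Q ν y x ≤ 1 :=
    hB3 y 1 hy hy01
  have hdef : ∀ x, bk01 Q ν y x = bk01 Q ν y x := fun _ => rfl
  obtain ⟨b, hb⟩ : ∃ b, b = bk01 Q ν y := ⟨_, rfl⟩
  rw [← hb] at hbm hb01 ⊢
  have hbint : Integrable b ν := int_bdd ν hbm (C := 1) fun x => by
    rw [abs_of_nonneg (hb01 x).1]; exact (hb01 x).2
  have hb2 : ∀ x, |b x ^ 2| ≤ 1 := fun x => by
    rw [abs_of_nonneg (sq_nonneg _)]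
    exact pow_le_one₀ (hb01 x).1 (hb01 x).2
  have hb1 : ∀ x, |b x| ≤ 1 := fun x => by rw [abs_of_nonneg (hb01 x).1]; exact (hb01 x).2
  have hy1 : ∀ x, |y x| ≤ 1 := fun x => by rw [abs_of_nonneg (hy01 x).1]; exact (hy01 x).2
  have hy2 : ∀ x, |y x ^ 2| ≤ 1 := fun x => by
    rw [abs_of_nonneg (sq_nonneg _)]
    exact pow_le_one₀ (hy01 x).1 (hy01 x).2
  -- the functions
  have hu1 : ∀ k : ℕ, Measurable fun z => ul m k (b z) := fun k => (ul_meas m k).comp hbm
  have hu2 : ∀ k : ℕ, Measurable fun z => 1 - ul m k (b z) := fun k => measurable_const.sub (hu1 k)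
  have hv1 : ∀ k : ℕ, Measurable fun z => ul m k (y z) := fun k => (ul_meas m k).comp hy
  have hv2 : ∀ k : ℕ, Measurable fun z => 1 - ul m k (y z) := fun k => measurable_const.sub (hv1 k)
  have bd1 : ∀ (k : ℕ) (r : ℝ), |ul m k r| ≤ 1 := fun k r => by
    rw [abs_of_nonneg (ul_nonneg m k r)]; exact ul_le_one m k r
  have bd2 : ∀ (k : ℕ) (r : ℝ), |1 - ul m k r| ≤ 1 := fun k r => by
    have h1 := ul_nonneg m k r
    have h2 := ul_le_one m k r
    rw [abs_le]; constructor <;> linarith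
  have i1 : ∀ k : ℕ, Integrable (fun x => ul m k (y x) * TT Q (fun z => 1 - ul m k (b z)) x) ν :=
    fun k => int_bdd ν ((hv1 k).mul (hT1 _ (hu2 k))) (C := 1) fun x => by
      rw [abs_mul]
      exact mul_le_one₀ (bd1 k _) (abs_nonneg _) (TT_bdd (fun z => bd2 k _) x)
  have i2 : ∀ k : ℕ, Integrable (fun x => (1 - ul m k (y x)) * TT Q (fun z => ul m k (b z)) x) ν :=
    fun k => int_bdd ν ((hv2 k).mul (hT1 _ (hu1 k))) (C := 1) fun x => by
      rw [abs_mul]
      exact mul_le_one₀ (bd2 k _) (abs_nonneg _) (TT_bdd (fun z => bd1 k _) x)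
  have i3 : ∀ k : ℕ, Integrable (fun x => ul m k (y x) * TT Q (fun z => 1 - ul m k (b z)) x +
        (1 - ul m k (y x)) * TT Q (fun z => ul m k (b z)) x) ν := fun k => (i1 k).add (i2 k)
  have e1 : ∑ k ∈ range m, (∫ x, ul m k (y x) * TT Q (fun z => 1 - ul m k (b z)) x ∂ν +
      ∫ x, (1 - ul m k (y x)) * TT Q (fun z => ul m k (b z)) x ∂ν) =
      ∫ x, ∑ k ∈ range m, (ul m k (y x) * TT Q (fun z => 1 - ul m k (b z)) x +
        (1 - ul m k (y x)) * TT Q (fun z => ul m k (b z)) x) ∂ν := by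
    rw [integral_finsetSum _ fun k _ => i3 k]
    refine sum_congr rfl fun k _ => ?_
    rw [← integral_add (i1 k) (i2 k)]
  have hms : (0 : ℝ) ≤ m * s / 2 := by positivity
  have hm' : (0 : ℝ) < m := by exact_mod_cast hm
  -- the pointwise bound
  have pt : ∀ x, ∑ k ∈ range m, (ul m k (y x) * TT Q (fun z => 1 - ul m k (b z)) x +
        (1 - ul m k (y x)) * TT Q (fun z => ul m k (b z)) x) ≤
      1 + m / (2 * s) + m * s / 2 * (y x ^ 2 - 2 * (y x * TT Q b x) + TT Q (fun z => b z ^ 2) x) := by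
    intro x
    have j1 : ∀ k : ℕ, Integrable (fun z => 1 - ul m k (b z)) (Q x) := fun k =>
      int_bdd (Q x) (hu2 k) (C := 1) fun z => bd2 k _
    have j2 : ∀ k : ℕ, Integrable (fun z => ul m k (b z)) (Q x) := fun k =>
      int_bdd (Q x) (hu1 k) (C := 1) fun z => bd1 k _
    have j3 : ∀ k : ℕ, Integrable (fun z => ul m k (y x) * (1 - ul m k (b z)) +
          (1 - ul m k (y x)) * ul m k (b z)) (Q x) := fun k =>
      ((j1 k).const_mul _).add ((j2 k).const_mul _)
    have e2 : ∑ k ∈ range m, (ul m k (y x) * TT Q (fun z => 1 - ul m k (b z)) x +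
        (1 - ul m k (y x)) * TT Q (fun z => ul m k (b z)) x) =
        ∫ z, ∑ k ∈ range m, (ul m k (y x) * (1 - ul m k (b z)) +
          (1 - ul m k (y x)) * ul m k (b z)) ∂(Q x) := by
      rw [integral_finsetSum _ fun k _ => j3 k]
      refine sum_congr rfl fun k _ => ?_
      rw [integral_add ((j1 k).const_mul _) ((j2 k).const_mul _), integral_const_mul,
        integral_const_mul]
      rfl
    have jb : Integrable b (Q x) := int_bdd (Q x) hbm (C := 1) hb1
    have jb2 : Integrable (fun z => b z ^ 2) (Q x) := int_bdd (Q x) (hbm.pow_const 2) (C := 1) hb2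
    have e3 : ∫ z, (1 + m / (2 * s) + m * s / 2 * (y x ^ 2 - 2 * y x * b z + b z ^ 2)) ∂(Q x) =
        1 + m / (2 * s) + m * s / 2 * (y x ^ 2 - 2 * (y x * TT Q b x) + TT Q (fun z => b z ^ 2) x) := by
      have k1 : Integrable (fun z => y x ^ 2 - 2 * y x * b z) (Q x) :=
        (integrable_const _).sub (jb.const_mul _)
      have k2 : Integrable (fun z => y x ^ 2 - 2 * y x * b z + b z ^ 2) (Q x) := k1.add jb2
      rw [integral_add (integrable_const _) (k2.const_mul _), integral_const_mul,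
        integral_add k1 jb2, integral_sub (integrable_const _) (jb.const_mul _),
        integral_const_mul]
      simp only [integral_const, probReal_univ, one_smul]
      unfold TT
      ring
    rw [e2, ← e3]
    refine integral_mono ?_ ?_ fun z => ?_
    · exact integrable_finsetSum _ fun k _ => j3 k
    · exact (integrable_const _).add
        (((((integrable_const _).sub (jb.const_mul _))).add jb2).const_mul _)
    · refine (count m hm (y x) (b z)).trans ?_
      have h1 : |y x - b z| ≤ s / 2 * (y x - b z) ^ 2 + 1 / (2 * s) := by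
        have h2 : (y x - b z) ^ 2 = |y x - b z| ^ 2 := (sq_abs _).symm
        rw [h2]
        have h3 : 0 ≤ (s * |y x - b z| - 1) ^ 2 / (2 * s) := by positivity
        have h4 : (s * |y x - b z| - 1) ^ 2 / (2 * s) =
            s / 2 * |y x - b z| ^ 2 + 1 / (2 * s) - |y x - b z| := by
          field_simp
          ring
        linarith
      have h5 := mul_le_mul_of_nonneg_left h1 hm'.le
      calc (m : ℝ) * |y x - b z| + 1 ≤
            m * (s / 2 * (y x - b z) ^ 2 + 1 / (2 * s)) + 1 := by linarith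
        _ = _ := by ring
  -- integration
  have l1 : Integrable (fun x => y x ^ 2) ν := int_bdd ν (hy.pow_const 2) (C := 1) hy2
  have l2 : Integrable (fun x => y x * TT Q b x) ν :=
    int_bdd ν (hy.mul (hT1 _ hbm)) (C := 1) fun x => by
      rw [abs_mul]
      exact mul_le_one₀ (hy1 x) (abs_nonneg _) (TT_bdd hb1 x)
  have l3 : Integrable (TT Q (fun z => b z ^ 2)) ν :=
    int_bdd ν (hT1 _ (hbm.pow_const 2)) (C := 1) fun x => TT_bdd hb2 x
  have l4 : Integrable (fun x => b x ^ 2) ν := int_bdd ν (hbm.pow_const 2) (C := 1) hb2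
  have l5 : Integrable (fun x => y x ^ 2 - 2 * (y x * TT Q b x)) ν := l1.sub (l2.const_mul _)
  have e4 : ∫ x, y x * TT Q b x ∂ν = ∫ x, b x ^ 2 ∂ν := by
    have := hB2 y b hy hy01 hbint
    rw [← hb] at this
    rw [← this]
    refine integral_congr_ae (ae_of_all _ fun x => ?_)
    show b x * b x = b x ^ 2
    ring
  have e5 : ∫ x, TT Q (fun z => b z ^ 2) x ∂ν = ∫ x, b x ^ 2 ∂ν := (hT2 _ l4).2.1
  rw [e1]
  refine (integral_mono ?_ ?_ pt).trans (le_of_eq ?_)
  · exact integrable_finsetSum _ fun k _ => i3 k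
  · exact (integrable_const _).add ((l5.add l3).const_mul _)
  · have l6 : Integrable (fun x => y x ^ 2 - 2 * (y x * TT Q b x) + TT Q (fun z => b z ^ 2) x) ν :=
      l5.add l3
    rw [integral_add (integrable_const _) (l6.const_mul _), integral_const_mul,
      integral_add l5 l3, integral_sub l1 (l2.const_mul _), integral_const_mul, e4, e5]
    simp only [integral_const, probReal_univ, one_smul]
    ring

theorem crc (hTT : S_TT) (hBK2 : S_BK2) : S_CRC := by
  intro S _ Q _ ν _ hν y hy hy01 m N hm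
  obtain ⟨-, -, hB3, -⟩ := hBK2 S Q ν hν
  rcases Nat.eq_zero_or_pos N with hN | hN
  · subst hN
    simp
  have hN' : (0 : ℝ) < N := by exact_mod_cast hN
  have hs : 0 < Real.sqrt N := Real.sqrt_pos.2 hN'
  have hm' : (0 : ℝ) < m := by exact_mod_cast hm
  -- rewriting of the terms
  have hterm : ∀ k t : ℕ, (∫ x, ({x | (k : ℝ) / m < yk Q ν y t x}).indicator
          (TT Q (({x | (k : ℝ) / m < yk Q ν y (t + 1) x}ᶜ).indicator 1)) x ∂ν
        + ∫ x, (({x | (k : ℝ) / m < yk Q ν y t x})ᶜ).indicator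
          (TT Q (({x | (k : ℝ) / m < yk Q ν y (t + 1) x}).indicator 1)) x ∂ν) =
      ∫ x, ul m k (yk Q ν y t x) *
          TT Q (fun z => 1 - ul m k (bk01 Q ν (yk Q ν y t) z)) x ∂ν +
        ∫ x, (1 - ul m k (yk Q ν y t x)) *
          TT Q (fun z => ul m k (bk01 Q ν (yk Q ν y t) z)) x ∂ν := by
    intro k t
    have hstep : yk Q ν y (t + 1) = bk01 Q ν (yk Q ν y t) := by
      unfold yk
      rw [Function.iterate_succ_apply']
    rw [hstep]
    have f1 : ({x | (k : ℝ) / m < bk01 Q ν (yk Q ν y t) x}ᶜ).indicator (1 : S → ℝ) =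
        fun z => 1 - ul m k (bk01 Q ν (yk Q ν y t) z) := by
      funext z
      unfold ul
      by_cases hz : (k : ℝ) / m < bk01 Q ν (yk Q ν y t) z
      · rw [Set.indicator_of_notMem (by simpa using hz), if_pos hz]
        ring
      · rw [Set.indicator_of_mem (by simpa using hz), if_neg hz]
        simp
    have f2 : ({x | (k : ℝ) / m < bk01 Q ν (yk Q ν y t) x}).indicator (1 : S → ℝ) =
        fun z => ul m k (bk01 Q ν (yk Q ν y t) z) := by
      funext z
      unfold ul
      by_cases hz : (k : ℝ) / m < bk01 Q ν (yk Q ν y t) z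
      · rw [Set.indicator_of_mem (by simpa using hz), if_pos hz]
        rfl
      · rw [Set.indicator_of_notMem (by simpa using hz), if_neg hz]
    rw [f1, f2]
    congr 1
    · refine integral_congr_ae (ae_of_all _ fun x => ?_)
      show Set.indicator _ _ x = _
      beta_reduce
      by_cases hx : (k : ℝ) / m < yk Q ν y t x
      · have hu : ul m k (yk Q ν y t x) = 1 := if_pos hx
        rw [Set.indicator_of_mem (by simpa using hx), hu, one_mul]
      · have hu : ul m k (yk Q ν y t x) = 0 := if_neg hx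
        rw [Set.indicator_of_notMem (by simpa using hx), hu, zero_mul]
    · refine integral_congr_ae (ae_of_all _ fun x => ?_)
      show Set.indicator _ _ x = _
      beta_reduce
      by_cases hx : (k : ℝ) / m < yk Q ν y t x
      · have hu : ul m k (yk Q ν y t x) = 1 := if_pos hx
        rw [Set.indicator_of_notMem (by simpa using hx), hu, sub_self, zero_mul]
      · have hu : ul m k (yk Q ν y t x) = 0 := if_neg hx
        rw [Set.indicator_of_mem (by simpa using hx), hu, sub_zero, one_mul]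
  simp only [hterm]
  rw [sum_comm]
  have hone : ∀ t : ℕ, ∑ k ∈ range m, (∫ x, ul m k (yk Q ν y t x) *
          TT Q (fun z => 1 - ul m k (bk01 Q ν (yk Q ν y t) z)) x ∂ν +
        ∫ x, (1 - ul m k (yk Q ν y t x)) *
          TT Q (fun z => ul m k (bk01 Q ν (yk Q ν y t) z)) x ∂ν) ≤
      1 + m / (2 * Real.sqrt N) + m * Real.sqrt N / 2 *
        (∫ x, yk Q ν y t x ^ 2 ∂ν - ∫ x, yk Q ν y (t + 1) x ^ 2 ∂ν) := by
    intro t
    have hstep : yk Q ν y (t + 1) = bk01 Q ν (yk Q ν y t) := by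
      unfold yk
      rw [Function.iterate_succ_apply']
    rw [hstep]
    exact onestep hTT hBK2 hν (hB3 y t hy hy01).1 (hB3 y t hy hy01).2 hm hs
  refine (sum_le_sum fun t _ => hone t).trans ?_
  rw [sum_add_distrib, ← mul_sum, sum_range_sub' (fun t => ∫ x, yk Q ν y t x ^ 2 ∂ν)]
  rw [sum_const, card_range, nsmul_eq_mul]
  have h0 : ∫ x, yk Q ν y 0 x ^ 2 ∂ν ≤ 1 := by
    have h1 : ∫ x, yk Q ν y 0 x ^ 2 ∂ν ≤ ∫ _x : S, (1 : ℝ) ∂ν := by
      obtain ⟨k1, k2⟩ := hB3 y 0 hy hy01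
      refine integral_mono (int_bdd ν (k1.pow_const 2) (C := 1) fun x => ?_)
        (integrable_const _) fun x => ?_
      · rw [abs_of_nonneg (sq_nonneg _)]
        exact pow_le_one₀ (k2 x).1 (k2 x).2
      · exact pow_le_one₀ (k2 x).1 (k2 x).2
    simpa using h1
  have h1 : 0 ≤ ∫ x, yk Q ν y (N - 1) x ^ 2 ∂ν := integral_nonneg fun x => sq_nonneg _
  have h2 : ((N - 1 : ℕ) : ℝ) ≤ N := by exact_mod_cast Nat.sub_le N 1
  have h3 : m * Real.sqrt N / 2 * (∫ x, yk Q ν y 0 x ^ 2 ∂ν - ∫ x, yk Q ν y (N - 1) x ^ 2 ∂ν) ≤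
      m * Real.sqrt N / 2 * 1 := mul_le_mul_of_nonneg_left (by linarith) (by positivity)
  have h4 : ((N - 1 : ℕ) : ℝ) * (1 + m / (2 * Real.sqrt N)) ≤ N * (1 + m / (2 * Real.sqrt N)) :=
    mul_le_mul_of_nonneg_right h2 (by positivity)
  have h5 : (N : ℝ) * (1 + m / (2 * Real.sqrt N)) = N + m * Real.sqrt N / 2 := by
    have : (N : ℝ) = Real.sqrt N * Real.sqrt N := (Real.mul_self_sqrt hN'.le).symm
    field_simp
    nlinarith [this]
  have h6 : 0 < (m : ℝ) * Real.sqrt N := by positivity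
  linarith

end Pool.Agent.N591.ME
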